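import Pool.Agent.H93.SPJ.Defs

/-!
# Row PRD of the board `spj`: adding an arithmetic progression along a direction
-/

open scoped Pointwise

namespace Pool.SPJ.H70

open Pool.SPJ

/-- the progression added to a set of rationals -/
def Pw (P : Finset ℚ) (c : ℚ) (w : ℕ) : Finset ℚ :=
  (P ×ˢ Finset.range w).image (fun p => p.1 + c * (p.2 : ℚ))

theorem mem_Pw {P : Finset ℚ} {c : ℚ} {w : ℕ} {z : ℚ} :
    z ∈ Pw P c w ↔ ∃ x ∈ P, ∃ i < w, x + c * (i : ℚ) = z := by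
  unfold Pw
  simp only [Finset.mem_image, Finset.mem_product, Finset.mem_range, Prod.exists]
  constructor
  · rintro ⟨x, i, ⟨hx, hi⟩, h⟩
    exact ⟨x, hx, i, hi, h⟩
  · rintro ⟨x, hx, i, hi, h⟩
    exact ⟨x, i, ⟨hx, hi⟩, h⟩

theorem Pw_card_le (P : Finset ℚ) (c : ℚ) (w : ℕ) : (Pw P c w).card ≤ w * P.card := by
  unfold Pw
  refine le_trans Finset.card_image_le ?_
  rw [Finset.card_product, Finset.card_range, mul_comm]

theorem Pw_nonempty {P : Finset ℚ} (hP : P.Nonempty) (c : ℚ) {w : ℕ} (hw : 1 ≤ w) :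
    (Pw P c w).Nonempty := by
  obtain ⟨x, hx⟩ := hP
  exact ⟨x + c * ((0 : ℕ) : ℚ), mem_Pw.2 ⟨x, hx, 0, by omega, rfl⟩⟩

theorem Pw_zero (P : Finset ℚ) {w : ℕ} (hw : 1 ≤ w) : Pw P 0 w = P := by
  ext z
  rw [mem_Pw]
  constructor
  · rintro ⟨x, hx, i, _, h⟩
    rw [zero_mul, add_zero] at h
    rwa [← h]
  · intro hz
    exact ⟨z, hz, 0, by omega, by simp⟩

theorem Pw_inj {P : Finset ℚ} {c : ℚ} {w : ℕ}
    (h : ∀ x ∈ P, ∀ y ∈ P, |x - y| < |c|) : (Pw P c w).card = w * P.card := by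
  unfold Pw
  rw [Finset.card_image_of_injOn, Finset.card_product, Finset.card_range, mul_comm]
  rintro ⟨x, i⟩ hxi ⟨y, j⟩ hyj hEq
  simp only [Finset.coe_product, Set.mem_prod, Finset.mem_coe] at hxi hyj
  simp only at hEq
  have h1 := h y hyj.1 x hxi.1
  have h2 : y - x = c * ((i : ℚ) - (j : ℚ)) := by linarith
  rw [h2, abs_mul] at h1
  have h3 : |(i : ℚ) - (j : ℚ)| < 1 := by
    by_contra hcon
    push Not at hcon
    have : |c| * 1 ≤ |c| * |(i : ℚ) - (j : ℚ)| := mul_le_mul_of_nonneg_left hcon (abs_nonneg c)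
    linarith
  have h4 : |(i : ℤ) - (j : ℤ)| < 1 := by exact_mod_cast h3
  have h5 : (i : ℤ) = (j : ℤ) := by
    have := Int.abs_lt_one_iff.1 h4
    omega
  have h6 : i = j := by exact_mod_cast h5
  subst h6
  have h7 : x = y := by linarith
  rw [h7]

theorem Pw_add_subset (P : Finset ℚ) (c : ℚ) {w : ℕ} (hw : 1 ≤ w) :
    Pw P c w + Pw P c w ⊆ Pw (P + P) c (2 * w - 1) := by
  intro z hz
  rw [Finset.mem_add] at hz
  obtain ⟨a, ha, b, hb, hab⟩ := hz
  rw [mem_Pw] at ha hb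
  obtain ⟨x, hx, i, hi, hxi⟩ := ha
  obtain ⟨y, hy, j, hj, hyj⟩ := hb
  rw [mem_Pw]
  refine ⟨x + y, Finset.add_mem_add hx hy, i + j, by omega, ?_⟩
  rw [← hab, ← hxi, ← hyj]
  push_cast
  ring

/-- the enlarged family of lines -/
def Aw (A : Finset (ℤ × ℤ)) (a b : ℤ) (w : ℕ) : Finset (ℤ × ℤ) :=
  (A ×ˢ Finset.range w).image (fun p => (p.1.1 - a * (p.2 : ℤ), p.1.2 + b * (p.2 : ℤ)))

theorem mem_Aw {A : Finset (ℤ × ℤ)} {a b : ℤ} {w : ℕ} {l : ℤ × ℤ} :
    l ∈ Aw A a b w ↔ ∃ m ∈ A, ∃ i < w, (m.1 - a * (i : ℤ), m.2 + b * (i : ℤ)) = l := by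
  unfold Aw
  rw [Finset.mem_image]
  constructor
  · rintro ⟨⟨m, i⟩, hp, h⟩
    rw [Finset.mem_product, Finset.mem_range] at hp
    exact ⟨m, hp.1, i, hp.2, h⟩
  · rintro ⟨m, hm, i, hi, h⟩
    exact ⟨(m, i), Finset.mem_product.2 ⟨hm, Finset.mem_range.2 hi⟩, h⟩

theorem Aw_image_subset (A : Finset (ℤ × ℤ)) (a b : ℤ) (w : ℕ) (t : ℚ) {P : Finset ℚ}
    (hP : A.image (ptz t) ⊆ P) :
    (Aw A a b w).image (ptz t) ⊆ Pw P (t * (b : ℚ) - (a : ℚ)) w := by
  intro z hz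
  rw [Finset.mem_image] at hz
  obtain ⟨l, hl, hz⟩ := hz
  rw [mem_Aw] at hl
  obtain ⟨m, hm, i, hi, hmi⟩ := hl
  rw [mem_Pw]
  refine ⟨ptz t m, hP (Finset.mem_image_of_mem _ hm), i, hi, ?_⟩
  rw [← hz, ← hmi]
  unfold ptz
  push_cast
  ring

theorem Aw_dir (A : Finset (ℤ × ℤ)) (a b : ℤ) (w : ℕ)
    (h : ∀ x ∈ A.image Prod.snd, ∀ y ∈ A.image Prod.snd, |x - y| < |b|) :
    w * (A.image Prod.snd).card ≤ ((Aw A a b w).image Prod.snd).card := by
  have hsub : ((A.image Prod.snd) ×ˢ Finset.range w).image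
      (fun p : ℤ × ℕ => p.1 + b * (p.2 : ℤ)) ⊆ (Aw A a b w).image Prod.snd := by
    intro z hz
    rw [Finset.mem_image] at hz
    obtain ⟨⟨d, i⟩, hp, hz⟩ := hz
    rw [Finset.mem_product, Finset.mem_image, Finset.mem_range] at hp
    obtain ⟨⟨m, hm, hmd⟩, hi⟩ := hp
    rw [Finset.mem_image]
    refine ⟨(m.1 - a * (i : ℤ), m.2 + b * (i : ℤ)), mem_Aw.2 ⟨m, hm, i, hi, rfl⟩, ?_⟩
    rw [← hz]
    simp only
    rw [hmd]
  refine le_trans ?_ (Finset.card_le_card hsub)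
  have hcard : ((A.image Prod.snd) ×ˢ Finset.range w).card = w * (A.image Prod.snd).card := by
    rw [Finset.card_product, Finset.card_range, mul_comm]
  rw [← hcard]
  refine le_of_eq (Finset.card_image_of_injOn ?_).symm
  rintro ⟨x, i⟩ hxi ⟨y, j⟩ hyj hEq
  simp only [Finset.coe_product, Set.mem_prod, Finset.mem_coe] at hxi hyj
  simp only at hEq
  have h1 := h y hyj.1 x hxi.1
  have h2 : y - x = b * ((i : ℤ) - (j : ℤ)) := by linarith
  rw [h2, abs_mul] at h1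
  have h3 : |(i : ℤ) - (j : ℤ)| < 1 := by
    by_contra hcon
    push Not at hcon
    have : |b| * 1 ≤ |b| * |(i : ℤ) - (j : ℤ)| := mul_le_mul_of_nonneg_left hcon (abs_nonneg b)
    linarith
  have h5 : (i : ℤ) = (j : ℤ) := by
    have := Int.abs_lt_one_iff.1 h3
    omega
  have h6 : i = j := by exact_mod_cast h5
  subst h6
  have h7 : x = y := by linarith
  rw [h7]

theorem exists_big (Z : Finset ℚ) : ∃ M : ℕ, ∀ z ∈ Z, z < (M : ℚ) := by
  obtain ⟨B, hB⟩ := Z.exists_le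
  obtain ⟨M, hM⟩ := exists_nat_gt B
  exact ⟨M, fun z hz => lt_of_le_of_lt (hB z hz) hM⟩

theorem t_prd : Pool.SPJ.PrdStmt := by
  intro A T R P s w hw hR
  classical
  obtain ⟨M, hM⟩ := exists_big
    (((A.image Prod.snd) ×ˢ (A.image Prod.snd)).image (fun p => |(p.1 : ℚ) - (p.2 : ℚ)|) ∪
      R.biUnion (fun r => (P r ×ˢ P r).image (fun p => |p.1 - p.2| / |r - s|)))
  have hb : 0 < s.den := s.den_pos
  have hb1 : (1 : ℚ) ≤ (s.den : ℚ) := by exact_mod_cast hb
  have hM0 : (0 : ℚ) ≤ (M : ℚ) := by positivity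
  have hs : s * (s.den : ℚ) = (s.num : ℚ) := Rat.mul_den_eq_num s
  have hc : ∀ t : ℚ, t * (((M : ℤ) * (s.den : ℤ) : ℤ) : ℚ) - (((M : ℤ) * s.num : ℤ) : ℚ) =
      (M : ℚ) * (s.den : ℚ) * (t - s) := by
    intro t
    push_cast
    rw [← hs]
    ring
  refine ⟨Aw A ((M : ℤ) * s.num) ((M : ℤ) * (s.den : ℤ)) w,
    fun r => Pw (P r) ((M : ℚ) * (s.den : ℚ) * (r - s)) w, ?_, ?_, ?_⟩
  · apply Aw_dir
    intro x hx y hy
    have h1 : |(x : ℚ) - (y : ℚ)| < (M : ℚ) := by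
      apply hM
      rw [Finset.mem_union]
      left
      rw [Finset.mem_image]
      exact ⟨(x, y), Finset.mem_product.2 ⟨hx, hy⟩, rfl⟩
    have h2 : |x - y| < (M : ℤ) := by exact_mod_cast h1
    have h3 : (0 : ℤ) ≤ (M : ℤ) := by positivity
    have h4 : (1 : ℤ) ≤ (s.den : ℤ) := by exact_mod_cast hb
    rw [abs_of_nonneg (a := (M : ℤ) * (s.den : ℤ)) (by positivity)]
    nlinarith
  · intro t _
    have h1 := Aw_image_subset A ((M : ℤ) * s.num) ((M : ℤ) * (s.den : ℤ)) w t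
      (Finset.Subset.refl (A.image (ptz t)))
    exact le_trans (Finset.card_le_card h1) (Pw_card_le _ _ _)
  · intro r hr
    obtain ⟨hne, hsub⟩ := hR r hr
    refine ⟨Pw_nonempty hne _ hw, ?_, Pw_card_le _ _ _, ?_, ?_⟩
    · have h1 := Aw_image_subset A ((M : ℤ) * s.num) ((M : ℤ) * (s.den : ℤ)) w r hsub
      rw [hc] at h1
      exact h1
    · intro hrs
      beta_reduce
      rw [hrs, sub_self, mul_zero, Pw_zero _ hw]
    · intro K hK
      have hK0 : (0 : ℝ) ≤ K * (P r).card := le_trans (by positivity) hK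
      beta_reduce
      by_cases hrs : r = s
      · rw [hrs, sub_self, mul_zero, Pw_zero _ hw, ← hrs]
        linarith
      · have hcard : (Pw (P r) ((M : ℚ) * (s.den : ℚ) * (r - s)) w).card = w * (P r).card := by
          apply Pw_inj
          intro x hx y hy
          have h1 : |x - y| / |r - s| < (M : ℚ) := by
            apply hM
            rw [Finset.mem_union]
            right
            rw [Finset.mem_biUnion]
            refine ⟨r, hr, ?_⟩
            rw [Finset.mem_image]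
            exact ⟨(x, y), Finset.mem_product.2 ⟨hx, hy⟩, rfl⟩
          have h2 : 0 < |r - s| := abs_pos.2 (sub_ne_zero.2 hrs)
          rw [div_lt_iff₀ h2] at h1
          rw [abs_mul, abs_mul, abs_of_nonneg hM0, abs_of_nonneg (by linarith : (0:ℚ) ≤ (s.den : ℚ))]
          have h3 : (M : ℚ) * |r - s| ≤ (M : ℚ) * (s.den : ℚ) * |r - s| := by
            apply mul_le_mul_of_nonneg_right _ h2.le
            nlinarith
          linarith
        have hle : (Pw (P r) ((M : ℚ) * (s.den : ℚ) * (r - s)) w +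
            Pw (P r) ((M : ℚ) * (s.den : ℚ) * (r - s)) w).card ≤
            (2 * w - 1) * (P r + P r).card :=
          le_trans (Finset.card_le_card (Pw_add_subset _ _ hw)) (Pw_card_le _ _ _)
        have hle2 : (2 * w - 1) * (P r + P r).card ≤ 2 * w * (P r + P r).card :=
          Nat.mul_le_mul_right _ (by omega)
        have hle3 : ((Pw (P r) ((M : ℚ) * (s.den : ℚ) * (r - s)) w +
            Pw (P r) ((M : ℚ) * (s.den : ℚ) * (r - s)) w).card : ℝ) ≤
            2 * (w : ℝ) * ((P r + P r).card : ℝ) := by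
          exact_mod_cast le_trans hle hle2
        rw [hcard]
        push_cast
        have hw0 : (0 : ℝ) ≤ (w : ℝ) := by positivity
        have := mul_le_mul_of_nonneg_left hK (by positivity : (0 : ℝ) ≤ 2 * (w : ℝ))
        nlinarith

end Pool.SPJ.H70
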